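import Mathlib
import Pool.Agent.V7H6.Box.Cor

/-!
# Exceptions to Oesterlé's inequality with a large exponent in boxes of radicals

For every `ε > 0` there is an `M` such that for every `k` the number of abc-triples `(a, b, c)` with
`rad a ≤ A`, `rad b ≤ B`, `rad c ≤ C`, `rad (abc) ≤ X` and `rad (abc) ^ M ≤ c ≤ X ^ k` is at most
`K X ^ ε` times the square root of the smallest of `A B`, `B C`, `C A` (`result`). For `a = 1` this
is `K X ^ ε √(min (B, C))`, so that at most about `X ^ (1/4 + ε)` pairs of consecutive integers occur.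

Proof. Put `Y = c ^ (1/M)`, an upper bound for the radical. A member of a triple is called dusty if
it is divisible by `ρ ^ N` with `Y ^ (γ/2) < ρ ≤ Y ^ γ`; otherwise it is a product of powers of at
most `2/γ + 1` integers `≤ Y ^ (2N)`. For a pair `p`, `q` of members and the third member `r`: if `r`
is dusty, the Cauchy-Schwarz inequality over the residue classes modulo a power of `ρ` gives the
geometric mean of the radicals of `p` and `q`. If `r` is not dusty and `p`, `q` are, the counting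
theorem for relations modulo powers gives each of the two radicals, hence the smaller one. If at most
one member is dusty, the starting library gives `X ^ ε`.
-/

set_option autoImplicit false

namespace Pool.Agent.Results.MP_2ec8a3_nt.BoxesOfRadicalsH6

/-- the radical: product of the distinct primes dividing `n` -/
def radical (n : ℕ) : ℕ := ∏ p ∈ n.primeFactors, p

/-- the abc-triples `(a, b, c)`: positive integers, `a + b = c`, `gcd (a, b) = 1` -/
def IsTriple (t : ℕ × ℕ × ℕ) : Prop :=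
  0 < t.1 ∧ 0 < t.2.1 ∧ Nat.Coprime t.1 t.2.1 ∧ t.1 + t.2.1 = t.2.2

/-- the radical of `abc` -/
def rad3 (t : ℕ × ℕ × ℕ) : ℕ := radical (t.1 * t.2.1 * t.2.2)

/-- the abc-triples with `rad (abc) ≤ X`, `rad (abc) ^ M ≤ c ≤ X ^ k`, `rad a ≤ A`, `rad b ≤ B` and
`rad c ≤ C` -/
def Box (M k X A B C : ℕ) : Set (ℕ × ℕ × ℕ) :=
  {t | IsTriple t ∧ rad3 t ≤ X ∧ rad3 t ^ M ≤ t.2.2 ∧ t.2.2 ≤ X ^ k ∧
    radical t.1 ≤ A ∧ radical t.2.1 ≤ B ∧ radical t.2.2 ≤ C}

theorem box_eq (M k X A B C : ℕ) :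
    Box M k X A B C = Pool.Agent.V7H6.Box.Box M k X A B C := by
  ext t
  constructor
  · rintro ⟨h1, h2, h3, h4, h5, h6, h7⟩
    exact ⟨⟨h1, h2, h3, h4⟩, h5, h6, h7⟩
  · rintro ⟨⟨h1, h2, h3, h4⟩, h5, h6, h7⟩
    exact ⟨h1, h2, h3, h4, h5, h6, h7⟩

/-- **Boxes of radicals.** For every `ε > 0` there is `M` such that for every `k` there is `K` such
that for all `X ≥ 1` and all `A`, `B`, `C` the number of abc-triples with `rad a ≤ A`, `rad b ≤ B`,
`rad c ≤ C`, `rad (abc) ≤ X` and `rad (abc) ^ M ≤ c ≤ X ^ k` is at most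
`K X ^ ε √(min (A B, B C, C A))`. -/
theorem result (ε : ℝ) (hε : 0 < ε) : ∃ M : ℕ, ∀ k : ℕ, ∃ K : ℝ, ∀ X A B C : ℕ, 1 ≤ X →
    (Box M k X A B C).Finite ∧ ((Box M k X A B C).ncard : ℝ) ≤
      K * (X : ℝ) ^ ε * Real.sqrt ((min (A * B) (min (B * C) (C * A)) : ℕ) : ℝ) := by
  obtain ⟨M, -, hM⟩ := Pool.Agent.V7H6.Box.exists_bd ε hε
  refine ⟨M, fun k => ?_⟩
  obtain ⟨K, -, hK⟩ := hM k
  refine ⟨K, fun X A B C hX => ?_⟩
  rw [box_eq]
  exact hK X hX A B C _ subset_rfl

end Pool.Agent.Results.MP_2ec8a3_nt.BoxesOfRadicalsH6
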