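import Pool.Agent.V7H9.AL.Eff7

/-!
# An asymptotic formula for the number of the abc triples with `c ≥ rad (abc) ^ M`

For EVERY nondecreasing function `φ > 0` the number of the abc triples of all heights with
`rad (abc) ≤ X` and `c ≥ φ (rad (abc)) rad (abc) ^ (1/3)` is
`∫ G (φ (u ^ (3/2))) du` over `1 ≤ u ≤ X ^ (2/3)`, with an explicit function `G` and an error
`O (X ^ (2/3 - ν))` that does not depend on `φ`. So for `1/3 < M < 1/3 + ν` the number of the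
exceptions `c ≥ rad (abc) ^ M` to Oesterlé's inequality is asymptotic to an explicit integral.
-/

set_option autoImplicit false

namespace Pool.Agent.Results.MP_2ec8a3_nt.ExceptionAsymptoticsH9

open Filter Topology

/-- the product of the primes dividing `n` -/
def radical (n : ℕ) : ℕ := ∏ p ∈ n.primeFactors, p

/-- the radical of `abc` for the triple `(a, b, a + b)` written `(a, b)` -/
def rad3 (p : ℕ × ℕ) : ℕ := radical (p.1 * p.2 * (p.1 + p.2))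

/-- all abc triples `(a, b, a + b)`, written `(a, b)`, of radical at most `X`: `a` and `b` are
coprime, `1 ≤ a ≤ b`; there is no condition on the size of `c = a + b` -/
def triples (X : ℝ) : Set (ℕ × ℕ) :=
  {p | 0 < p.1 ∧ p.1 ≤ p.2 ∧ Nat.Coprime p.1 p.2 ∧ (rad3 p : ℝ) ≤ X}

/-- the triples of radical at most `X` with `c ≥ φ (R) R ^ (1/3)`, `R = rad (abc)` -/
def high (φ : ℝ → ℝ) (X : ℝ) : Set (ℕ × ℕ) :=
  {p | p ∈ triples X ∧
    φ (rad3 p : ℝ) * (rad3 p : ℝ) ^ ((1 : ℝ) / 3) ≤ ((p.1 + p.2 : ℕ) : ℝ)}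

/-- the exceptions to Oesterlé's inequality with the exponent `M`: the triples of radical at most
`X` with `c ≥ rad (abc) ^ M` -/
def exceptions (M X : ℝ) : Set (ℕ × ℕ) :=
  {p | p ∈ triples X ∧ (rad3 p : ℝ) ^ M ≤ ((p.1 + p.2 : ℕ) : ℝ)}

/-- the product over the primes of `1 - 4 / q ^ 2 + 3 / q ^ 3` -/
noncomputable def dens : ℝ :=
  ∏' q : Nat.Primes, (1 - 4 / ((q : ℕ) : ℝ) ^ 2 + 3 / ((q : ℕ) : ℝ) ^ 3)

/-- the weight `w ^ (-1/3) ∏ 3 (q - 1) / (q ^ 2 + q - 3)` (over the primes `q ∣ w`) of `w` -/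
noncomputable def weight (w : ℕ) : ℝ :=
  (w : ℝ) ^ (-(1 / 3) : ℝ) * ∏ q ∈ w.primeFactors, 3 * ((q : ℝ) - 1) / ((q : ℝ) ^ 2 + q - 3)

/-- half the incomplete Beta integral with exponents `1/3, 1/3` -/
noncomputable def H (s : ℝ) : ℝ := 1 / 2 * ∫ t in (0 : ℝ)..s, (t * (1 - t)) ^ (-(2 / 3) : ℝ)

/-- the limit distribution of `c / rad (abc) ^ (1/3)` -/
noncomputable def G (z : ℝ) : ℝ :=
  ∑' w : ℕ, dens * weight w * H ((1 - Real.sqrt (1 - 4 * w / z ^ 3)) / 2)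

/-- the integral of `G (φ (u ^ (3/2)))` over `1 ≤ u ≤ X ^ (2/3)` -/
noncomputable def mainTerm (φ : ℝ → ℝ) (X : ℝ) : ℝ :=
  ∫ u in (1 : ℝ)..(X ^ ((2 : ℝ) / 3)), G (φ (u ^ ((3 : ℝ) / 2)))

lemma exc_eq (M X : ℝ) : exceptions M X = high (fun t => t ^ (M - 1 / 3)) X := by
  ext p
  unfold exceptions high
  rw [Set.mem_ofPred_eq, Set.mem_ofPred_eq]
  have h : (0 : ℝ) < rad3 p := Pool.Agent.V7H9.AL.rad3_pos p
  have e : (rad3 p : ℝ) ^ M = (rad3 p : ℝ) ^ (M - 1 / 3) * (rad3 p : ℝ) ^ ((1 : ℝ) / 3) := by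
    rw [← Real.rpow_add h]
    congr 1
    ring
  rw [e]

/-- **An asymptotic formula for the number of exceptions.** There are `C, ν > 0` such that
(1) for EVERY nondecreasing function `φ > 0` on `[1, ∞)` and all `X ≥ 1` the number of the abc
triples (of all heights) of radical at most `X` with `c ≥ φ (R) R ^ (1/3)`, `R = rad (abc)`, and
the number of the radicals of these triples, differ from the integral of `G (φ (u ^ (3/2)))` over
`1 ≤ u ≤ X ^ (2/3)` by at most `C X ^ (2/3 - ν)`;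
(2) for `1/3 < M < 1/3 + ν` the number of the triples of radical at most `X` with `c ≥ R ^ M`, and
the number of the radicals of these triples, are asymptotic to the integral of
`G (u ^ (3 (M - 1/3) / 2))` over `1 ≤ u ≤ X ^ (2/3)`, which is at least `c X ^ (1 - M)` for
`X ≥ 2`, with `c > 0` independent of `M`.
(3) `G` is positive and nonincreasing on `(0, ∞)`, `G (z) ≥ 3 dens / (2 z)` for `z ^ 3 ≥ 4`, and
for all `0 < ε ≤ 1` there is `C'` with `G (z) ≤ C' z ^ (ε - 1)` for all `z > 0`. -/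
theorem result : (∀ X : ℝ, (triples X).Finite) ∧
    (∃ C ν : ℝ, 0 < C ∧ 0 < ν ∧
      (∀ φ : ℝ → ℝ, MonotoneOn φ (Set.Ici 1) → (∀ t : ℝ, 1 ≤ t → 0 < φ t) → ∀ X : ℝ, 1 ≤ X →
        |((high φ X).ncard : ℝ) - mainTerm φ X| ≤ C * X ^ (2 / 3 - ν) ∧
        |((rad3 '' high φ X).ncard : ℝ) - mainTerm φ X| ≤ C * X ^ (2 / 3 - ν)) ∧
      (∀ M : ℝ, 1 / 3 < M → M < 1 / 3 + ν →
        Tendsto (fun X : ℝ => ((exceptions M X).ncard : ℝ) /
          mainTerm (fun t => t ^ (M - 1 / 3)) X) atTop (𝓝 1) ∧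
        Tendsto (fun X : ℝ => ((rad3 '' exceptions M X).ncard : ℝ) /
          mainTerm (fun t => t ^ (M - 1 / 3)) X) atTop (𝓝 1))) ∧
    (∃ c : ℝ, 0 < c ∧ ∀ M : ℝ, 1 / 3 < M → ∀ X : ℝ, 2 ≤ X →
      c * X ^ (1 - M) ≤ mainTerm (fun t => t ^ (M - 1 / 3)) X) ∧
    (0 < dens ∧ (∀ z : ℝ, 0 < z → 0 < G z) ∧ (∀ z z' : ℝ, 0 < z → z ≤ z' → G z' ≤ G z) ∧
      (∀ z : ℝ, 0 < z → 4 ≤ z ^ 3 → 3 / 2 * dens / z ≤ G z) ∧
      (∀ ε : ℝ, 0 < ε → ε ≤ 1 → ∃ C : ℝ, 0 < C ∧ ∀ z : ℝ, 0 < z → G z ≤ C * z ^ (ε - 1))) := by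
  obtain ⟨C1, ν1, hC1, hν1, -, h1⟩ := Pool.Agent.V7H9.AL.Hi_final
  obtain ⟨C2, ν2, hC2, hν2, -, h2⟩ := Pool.Agent.V7H9.AL.image_eff
  have hG : ∀ z, G z = Pool.Agent.V7H9.AL.Gz z := fun z => rfl
  have hdens : 0 < dens := Pool.Agent.V7H9.AL.C0_pos
  have key : ∀ φ : ℝ → ℝ, MonotoneOn φ (Set.Ici 1) → (∀ t : ℝ, 1 ≤ t → 0 < φ t) → ∀ X : ℝ,
      1 ≤ X → |((high φ X).ncard : ℝ) - mainTerm φ X| ≤ (C1 + C2) * X ^ (2 / 3 - min ν1 ν2) ∧
        |((rad3 '' high φ X).ncard : ℝ) - mainTerm φ X| ≤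
          (C1 + C2) * X ^ (2 / 3 - min ν1 ν2) := by
    intro φ hφ hφ0 X hX
    have k1 : X ^ (2 / 3 - ν1) ≤ X ^ (2 / 3 - min ν1 ν2) :=
      Real.rpow_le_rpow_of_exponent_le hX (by linarith [min_le_left ν1 ν2])
    have k2 : X ^ (2 / 3 - ν2) ≤ X ^ (2 / 3 - min ν1 ν2) :=
      Real.rpow_le_rpow_of_exponent_le hX (by linarith [min_le_right ν1 ν2])
    have k3 := mul_le_mul_of_nonneg_left k1 hC1.le
    have k4 := mul_le_mul_of_nonneg_left k2 hC2.le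
    have hX0 : 0 < X := by linarith
    have k5 : 0 ≤ C2 * X ^ (2 / 3 - min ν1 ν2) := by positivity
    have g1 : |((high φ X).ncard : ℝ) - mainTerm φ X| ≤ C1 * X ^ (2 / 3 - ν1) :=
      h1 φ hφ hφ0 X hX
    have g2 : |((rad3 '' high φ X).ncard : ℝ) - (high φ X).ncard| ≤ C2 * X ^ (2 / 3 - ν2) :=
      h2 X (high φ X) hX fun p hp => hp.1
    obtain ⟨a1, a2⟩ := abs_le.1 g1
    obtain ⟨a3, a4⟩ := abs_le.1 g2
    rw [add_mul]
    constructor
    · rw [abs_le]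
      constructor <;> linarith
    · rw [abs_le]
      constructor <;> linarith
  have hpow : ∀ M : ℝ, 1 / 3 < M → MonotoneOn (fun t : ℝ => t ^ (M - 1 / 3)) (Set.Ici 1) ∧
      ∀ t : ℝ, 1 ≤ t → 0 < t ^ (M - 1 / 3) := by
    intro M hM
    refine ⟨fun t ht t' _ htt => ?_, fun t ht => by positivity⟩
    rw [Set.mem_Ici] at ht
    exact Real.rpow_le_rpow (by linarith) htt (by linarith)
  refine ⟨Pool.Agent.Y911.AA.triples_finite', ⟨C1 + C2, min ν1 ν2, by positivity,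
    lt_min hν1 hν2, key, fun M hM hMν => ?_⟩, ?_, hdens, fun z hz => ?_, fun z z' hz hzz => ?_,
    fun z hz hz4 => ?_, fun ε hε hε1 => ?_⟩
  · obtain ⟨p1, p2⟩ := hpow M hM
    simp only [exc_eq]
    exact ⟨Pool.Agent.V7H9.AL.ratio (by positivity) (by linarith) (by linarith)
        fun X hX => (key _ p1 p2 X hX).1,
      Pool.Agent.V7H9.AL.ratio (by positivity) (by linarith) (by linarith)
        fun X hX => (key _ p1 p2 X hX).2⟩
  · obtain ⟨c, hc, h⟩ := Pool.Agent.V7H9.AL.main_ge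
    refine ⟨c, hc, fun M hM X hX => ?_⟩
    have h3 := h (M - 1 / 3) (by linarith) X hX
    have e : (2 / 3 - (M - 1 / 3) : ℝ) = 1 - M := by ring
    rw [e] at h3
    exact h3
  · rcases le_or_gt (z ^ 3) 4 with h | h
    · rw [hG, Pool.Agent.V7H9.AL.Gz_eq hz h]
      exact Pool.Agent.V7H9.AL.kap_pos
    · refine lt_of_lt_of_le ?_ (Pool.Agent.V7H9.AL.Gz_ge hz h.le)
      have := Pool.Agent.V7H9.AL.C0_pos
      positivity
  · exact Pool.Agent.V7H9.AL.Gz_anti hz hzz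
  · exact Pool.Agent.V7H9.AL.Gz_ge hz hz4
  · obtain ⟨C, hC, h⟩ := Pool.Agent.V7H9.AL.Gz_le hε hε1
    refine ⟨C, hC, fun z hz => ?_⟩
    have h2 := h z hz
    rw [neg_sub] at h2
    exact h2

end Pool.Agent.Results.MP_2ec8a3_nt.ExceptionAsymptoticsH9
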