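import Pool.Agent.V7H9.AL.Eff5

/-!
# The limit law of the abc triples ordered by radical, with a power saving

The abc triples `(a, b, c)`, `a ≤ b`, of radical at most `X` (of all heights) obey a limit law with
a power saving error term, uniformly in the region: the direction `a / c`, the repeated part
`w = abc / rad (abc)` and `rad (abc) / X` become independent, with explicit distributions. So the
number of the triples, and the number of the radicals of abc triples, is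
`κ X ^ (2/3) + O (X ^ (2/3 - ν))` with an explicit constant `κ` (an Euler product and values of the
Gamma function).

The triples of small repeated part are counted with a truncated inclusion-exclusion over the primes
`q` whose square divides `abc / w` or which divide `a` and `b`, with Rankin's trick for the
truncation, and with the lattice points of the region `0 < s ≤ l t`, `s t (s + t) ≤ 1`; the
triples of large repeated part and the cusps are bounded by the theorems of the starting library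
(`TH498.AR`, `Y911.AA`, `Y911.RD`).
-/

set_option autoImplicit false

namespace Pool.Agent.Results.MP_2ec8a3_nt.PowerSavingLawH9

open Filter Topology

/-- the product of the primes dividing `n` -/
def radical (n : ℕ) : ℕ := ∏ p ∈ n.primeFactors, p

/-- the radical of `abc` for the triple `(a, b, a + b)` written `(a, b)` -/
def rad3 (p : ℕ × ℕ) : ℕ := radical (p.1 * p.2 * (p.1 + p.2))

/-- the repeated part `abc / rad (abc)` -/
def repeated (p : ℕ × ℕ) : ℕ := p.1 * p.2 * (p.1 + p.2) / rad3 p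

/-- all abc triples `(a, b, a + b)`, written `(a, b)`, of radical at most `X`: `a` and `b` are
coprime, `1 ≤ a ≤ b`; there is no condition on the size of `c = a + b` -/
def triples (X : ℝ) : Set (ℕ × ℕ) :=
  {p | 0 < p.1 ∧ p.1 ≤ p.2 ∧ Nat.Coprime p.1 p.2 ∧ (rad3 p : ℝ) ≤ X}

/-- the triples of radical at most `X` with `a / c ≤ s (w)`, where `w` is the repeated part -/
def below (s : ℕ → ℝ) (X : ℝ) : Set (ℕ × ℕ) :=
  {p | p ∈ triples X ∧ (p.1 : ℝ) / ((p.1 + p.2 : ℕ) : ℝ) ≤ s (repeated p)}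

/-- the product over the primes of `1 - 4 / q ^ 2 + 3 / q ^ 3` -/
noncomputable def dens : ℝ :=
  ∏' q : Nat.Primes, (1 - 4 / ((q : ℕ) : ℝ) ^ 2 + 3 / ((q : ℕ) : ℝ) ^ 3)

/-- the weight `w ^ (-1/3) ∏ 3 (q - 1) / (q ^ 2 + q - 3)` (over the primes `q ∣ w`) of `w` -/
noncomputable def weight (w : ℕ) : ℝ :=
  (w : ℝ) ^ (-(1 / 3) : ℝ) * ∏ q ∈ w.primeFactors, 3 * ((q : ℝ) - 1) / ((q : ℝ) ^ 2 + q - 3)

/-- half the incomplete Beta integral with exponents `1/3, 1/3` -/
noncomputable def H (s : ℝ) : ℝ := 1 / 2 * ∫ t in (0 : ℝ)..s, (t * (1 - t)) ^ (-(2 / 3) : ℝ)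

/-- the constant -/
noncomputable def κ : ℝ := Real.Gamma (1 / 3) ^ 2 / (4 * Real.Gamma (2 / 3)) *
  ∏' q : Nat.Primes, (1 - 4 / ((q : ℕ) : ℝ) ^ 2 + 3 / ((q : ℕ) : ℝ) ^ 3 +
    3 * (((q : ℕ) : ℝ) - 1) ^ 2 / (((q : ℕ) : ℝ) ^ 3 * (((q : ℕ) : ℝ) ^ ((1 : ℝ) / 3) - 1)))

lemma eT (X : ℝ) : triples X =
    Pool.Agent.Results.MP_1ea25c_nt.AlmostAllTriples.triples X := rfl

lemma eR (p : ℕ × ℕ) : rad3 p =
    Pool.Agent.Results.MP_1ea25c_nt.AlmostAllTriples.rad3 p := rfl

lemma rep_eq {X : ℝ} {p : ℕ × ℕ} (hp : p ∈ triples X) :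
    repeated p = Pool.Agent.TH498.AR.psi3 ∅ p := by
  have h := Pool.Agent.TH498.AR.coprime3 (P := ∅) hp.2.2.1
  rw [← Pool.Agent.TH498.AR.rd_eq] at h
  have h0 : 0 < rad3 p := Pool.Agent.TH498.AR.rd_pos _
  unfold repeated
  have h' : Pool.Agent.TH498.AR.psi3 ∅ p * rad3 p = p.1 * p.2 * (p.1 + p.2) := h
  rw [← h', Nat.mul_div_cancel _ h0]

lemma below_eq (s : ℕ → ℝ) (X : ℝ) : below s X = Pool.Agent.V7H9.AL.TS s X := by
  ext p
  unfold Pool.Agent.V7H9.AL.TS below
  rw [Set.mem_ofPred_eq, Set.mem_ofPred_eq, ← eT]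
  have hc : ∀ p : ℕ × ℕ, p ∈ triples X → (0 : ℝ) < ((p.1 + p.2 : ℕ) : ℝ) := by
    intro p hp
    have := hp.1
    exact_mod_cast (by omega : 0 < p.1 + p.2)
  constructor
  · rintro ⟨a1, a2⟩
    refine ⟨a1, ?_⟩
    rw [rep_eq a1, div_le_iff₀ (hc p a1)] at a2
    exact a2
  · rintro ⟨a1, a2⟩
    refine ⟨a1, ?_⟩
    rw [rep_eq a1, div_le_iff₀ (hc p a1)]
    exact a2

lemma below_half (X : ℝ) : below (fun _ => 1 / 2) X = triples X := by
  ext p
  unfold below
  rw [Set.mem_ofPred_eq]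
  refine ⟨fun h => h.1, fun h => ⟨h, ?_⟩⟩
  have b1 : (0 : ℝ) < p.1 := by exact_mod_cast h.1
  have b2 : (p.1 : ℝ) ≤ p.2 := by exact_mod_cast h.2.1
  push_cast
  rw [div_le_div_iff₀ (by linarith) (by norm_num)]
  linarith

/-- **The limit law of the abc triples ordered by radical, with a power saving.** There are
`C, ν > 0` such that for all `X ≥ 1` and ALL functions `s` with values in `[0, 1/2]` the number of
the triples of radical at most `X` with `a / c ≤ s (w)`, `w = abc / rad (abc)`, and the number of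
the radicals of these triples, differ from `X ^ (2/3) ∑ dens weight(w) H (s (w))` by at most
`C X ^ (2/3 - ν)`. In particular (`s = 1/2`) the number of all the triples of radical at most `X`
and the number of their radicals differ from `κ X ^ (2/3)` by at most `C X ^ (2/3 - ν)`, where
`κ > 0` is explicit. -/
theorem result : (∀ X : ℝ, (triples X).Finite) ∧ 0 < κ ∧ ∃ C ν : ℝ, 0 < C ∧ 0 < ν ∧
    ∀ X : ℝ, 1 ≤ X →
    (∀ s : ℕ → ℝ, (∀ w, 0 ≤ s w ∧ s w ≤ 1 / 2) →
      |((below s X).ncard : ℝ) - X ^ ((2 : ℝ) / 3) * ∑' w : ℕ, dens * weight w * H (s w)| ≤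
        C * X ^ (2 / 3 - ν) ∧
      |((rad3 '' below s X).ncard : ℝ) -
        X ^ ((2 : ℝ) / 3) * ∑' w : ℕ, dens * weight w * H (s w)| ≤ C * X ^ (2 / 3 - ν)) ∧
    |((triples X).ncard : ℝ) - κ * X ^ ((2 : ℝ) / 3)| ≤ C * X ^ (2 / 3 - ν) ∧
    |((rad3 '' triples X).ncard : ℝ) - κ * X ^ ((2 : ℝ) / 3)| ≤ C * X ^ (2 / 3 - ν) := by
  obtain ⟨C1, ν1, hC1, hν1, h1⟩ := Pool.Agent.V7H9.AL.law_t_eff
  obtain ⟨C2, ν2, hC2, hν2, -, h2⟩ := Pool.Agent.V7H9.AL.image_eff
  refine ⟨Pool.Agent.Y911.AA.triples_finite', Pool.Agent.V7H9.AL.kap_pos, C1 + C2, min ν1 ν2,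
    by positivity, lt_min hν1 hν2, fun X hX => ?_⟩
  have k1 : X ^ (2 / 3 - ν1) ≤ X ^ (2 / 3 - min ν1 ν2) :=
    Real.rpow_le_rpow_of_exponent_le hX (by linarith [min_le_left ν1 ν2])
  have k2 : X ^ (2 / 3 - ν2) ≤ X ^ (2 / 3 - min ν1 ν2) :=
    Real.rpow_le_rpow_of_exponent_le hX (by linarith [min_le_right ν1 ν2])
  have k3 := mul_le_mul_of_nonneg_left k1 hC1.le
  have k4 := mul_le_mul_of_nonneg_left k2 hC2.le
  have hX0 : 0 < X := by linarith
  have k5 : 0 ≤ C2 * X ^ (2 / 3 - min ν1 ν2) := by positivity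
  have key : ∀ s : ℕ → ℝ, (∀ w, 0 ≤ s w ∧ s w ≤ 1 / 2) →
      |((below s X).ncard : ℝ) - X ^ ((2 : ℝ) / 3) * ∑' w : ℕ, dens * weight w * H (s w)| ≤
        (C1 + C2) * X ^ (2 / 3 - min ν1 ν2) ∧
      |((rad3 '' below s X).ncard : ℝ) -
        X ^ ((2 : ℝ) / 3) * ∑' w : ℕ, dens * weight w * H (s w)| ≤
        (C1 + C2) * X ^ (2 / 3 - min ν1 ν2) := by
    intro s hs
    have g1 := h1 s hs X hX
    rw [← below_eq] at g1
    have g2 := h2 X (below s X) hX fun p hp => hp.1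
    have g1' : |((below s X).ncard : ℝ) -
        X ^ ((2 : ℝ) / 3) * ∑' w : ℕ, dens * weight w * H (s w)| ≤ C1 * X ^ (2 / 3 - ν1) := g1
    have g2' : |((rad3 '' below s X).ncard : ℝ) - (below s X).ncard| ≤
        C2 * X ^ (2 / 3 - ν2) := g2
    obtain ⟨a1, a2⟩ := abs_le.1 g1'
    obtain ⟨a3, a4⟩ := abs_le.1 g2'
    rw [add_mul]
    constructor
    · rw [abs_le]
      constructor <;> linarith
    · rw [abs_le]
      constructor <;> linarith
  obtain ⟨g1, g2⟩ := key (fun _ => 1 / 2) fun _ => ⟨by norm_num, le_rfl⟩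
  have e : ∑' w : ℕ, dens * weight w * H (1 / 2) = κ := Pool.Agent.V7H9.AL.kap_eq
  rw [below_half, e, mul_comm] at g1 g2
  exact ⟨key, g1, g2⟩

end Pool.Agent.Results.MP_2ec8a3_nt.PowerSavingLawH9
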