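import Pool.Agent.V7H39.VP.Pos

/-!
# The violation profile of real numbers

For a fraction `p / q` in `(0, 1)`, in lowest terms, consider the inequality
`q < K * rad (p (q - p) q) ^ M` for its abc-triple `(p, q - p, q)`. For a real number `ξ` and `τ > 0` look at
the approximations `p / q` of `ξ` with `|ξ - p / q| ≤ q ^ (-τ)` that violate it.

For `0 < s < 1` the points `ξ` at which, for all `τ` in `(1 / s, 2 / s)`, the critical exponent `M` of the
inequality is exactly `1 / (1 + s τ)`, form a set of positive `s`-dimensional Hausdorff measure and of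
dimension `s`; the same holds simultaneously for countably many affine images of `ξ` modulo one.
-/

set_option autoImplicit false

namespace Pool.Agent.Results.MP_2ec8a3_nt.ViolationProfileH39

open MeasureTheory Filter Topology
open scoped ENNReal NNReal

/-- the product of the primes dividing `n` -/
def rad (n : ℕ) : ℕ := ∏ p ∈ n.primeFactors, p

/-- the fraction `t.1 / t.2`, in lowest terms and in `(0, 1)`, approximates `ξ` with exponent `τ` -/
def Approximates (τ ξ : ℝ) (t : ℕ × ℕ) : Prop :=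
  0 < t.1 ∧ t.1 < t.2 ∧ Nat.Coprime t.1 t.2 ∧ |ξ - (t.1 : ℝ) / t.2| ≤ (t.2 : ℝ) ^ (-τ)

/-- the abc-triple `(p, q - p, q)` of the fraction `p / q = t.1 / t.2` satisfies
`q < K * rad (p (q - p) q) ^ M` -/
def Holds (K M : ℝ) (t : ℕ × ℕ) : Prop :=
  (t.2 : ℝ) < K * (rad (t.1 * (t.2 - t.1) * t.2) : ℝ) ^ M

/-- the violations among the approximations of `ξ` of exponent `τ` -/
def Violations (K M τ ξ : ℝ) : Set (ℕ × ℕ) := {t | Approximates τ ξ t ∧ ¬ Holds K M t}

/-- the real numbers with infinitely many approximations of exponent `τ` violating the inequality -/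
def Exceptional (K M τ : ℝ) : Set ℝ := {ξ : ℝ | (Violations K M τ ξ).Infinite}

lemma rad_pos (n : ℕ) : 0 < rad n :=
  Finset.prod_pos fun _ hp => (Nat.prime_of_mem_primeFactors hp).pos

lemma viol_eq {K M : ℝ} (hK : 0 < K) (hM : 0 < M) (τ ξ : ℝ) : Violations K M τ ξ =
    {t | t ∈ Pool.Agent.R479.DA.Sm (K ^ (-(1 / M))) (1 / M) ∧
      |ξ - (t.1 : ℝ) / t.2| ≤ (t.2 : ℝ) ^ (-τ)} := by
  ext ⟨p, q⟩
  have hr : (0 : ℝ) < (rad (p * (q - p) * q) : ℝ) := by exact_mod_cast rad_pos _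
  have hq0 : (0 : ℝ) ≤ (q : ℝ) := Nat.cast_nonneg q
  have hrad : ((Pool.Agent.H785R2.ABC.rad (p * q * (q - p)) : ℕ) : ℝ) =
      (rad (p * (q - p) * q) : ℝ) := by
    rw [show p * q * (q - p) = p * (q - p) * q by ring]
    rfl
  have key : ¬ Holds K M (p, q) ↔ (rad (p * (q - p) * q) : ℝ) ≤ K ^ (-(1 / M)) * (q : ℝ) ^ (1 / M) := by
    unfold Holds
    simp only [not_lt]
    have e1 : K ^ (-(1 / M)) * (q : ℝ) ^ (1 / M) = (K⁻¹ * q) ^ (1 / M) := by
      rw [Real.mul_rpow (by positivity) hq0, Real.inv_rpow hK.le, Real.rpow_neg hK.le]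
    have e2 : (rad (p * (q - p) * q) : ℝ) =
        ((rad (p * (q - p) * q) : ℝ) ^ M) ^ (1 / M) := by
      rw [← Real.rpow_mul hr.le, mul_one_div_cancel hM.ne', Real.rpow_one]
    rw [e1]
    nth_rewrite 2 [e2]
    rw [Real.rpow_le_rpow_iff (by positivity) (by positivity) (by positivity), inv_mul_eq_div,
      le_div_iff₀' hK]
  constructor
  · rintro ⟨⟨h1, h2, h3, h4⟩, h5⟩
    refine ⟨⟨h1, h2, h3, ?_⟩, h4⟩
    simp only
    rw [hrad]
    exact key.1 h5
  · rintro ⟨⟨h1, h2, h3, h4⟩, h5⟩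
    simp only at h4
    rw [hrad] at h4
    exact ⟨⟨h1, h2, h3, h5⟩, key.2 h4⟩

lemma exc_eq {K M : ℝ} (hK : 0 < K) (hM : 0 < M) (τ : ℝ) :
    Exceptional K M τ = Pool.Agent.R479.DA.WW (K ^ (-(1 / M))) (1 / M) τ := by
  ext ξ
  unfold Exceptional Pool.Agent.R479.DA.WW
  simp only [Set.mem_ofPred_eq]
  rw [viol_eq hK hM]

/-- the violations are monotone in the three parameters -/
lemma viol_subset {K K' M M' τ τ' ξ : ℝ} (hK : K' ≤ K) (hK' : 0 ≤ K') (hM : M' ≤ M) (hτ : τ' ≤ τ) :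
    Violations K M τ ξ ⊆ Violations K' M' τ' ξ := by
  rintro ⟨p, q⟩ ⟨⟨h1, h2, h3, h4⟩, h5⟩
  simp only at h1 h2 h3 h4
  have hq : (1 : ℝ) ≤ (q : ℝ) := by
    have : 1 ≤ q := by omega
    exact_mod_cast this
  have hr : (1 : ℝ) ≤ (rad (p * (q - p) * q) : ℝ) := by exact_mod_cast rad_pos _
  refine ⟨⟨h1, h2, h3, h4.trans (Real.rpow_le_rpow_of_exponent_le hq (by linarith))⟩, ?_⟩
  unfold Holds at h5 ⊢
  simp only [not_lt] at h5 ⊢
  refine le_trans ?_ h5
  exact mul_le_mul hK (Real.rpow_le_rpow_of_exponent_le hr hM) (by positivity) (hK'.trans hK)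

/-- the exponent of the known upper bound for the number of the fractions with a small radical -/
noncomputable def bound (l : ℝ) : ℝ :=
  if l ≤ 2 / 3 then 4 * l / 7
  else if l ≤ 1 then (13 * l + 2) / 28
  else if l ≤ 3 / 2 then 5 * (10 * l - 1) / 84
  else if l ≤ 16 / 9 then (9 * l - 1) / 15
  else if l ≤ 2 then 1
  else l - 1

/-- the violation exponents: for `0 < τ < 2 / s` infinitely many approximations violate the inequality
with any exponent below `1 / (1 + s τ)`; for `τ > 1 / s` only finitely many do with any exponent above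
`1 / (1 + s τ)`; for all `τ > 0` only finitely many do with the exponents `M` with `bound (1 / M) < s τ`;
and for `τ > 2 / s` there are only finitely many approximations at all -/
def Profile (s ξ : ℝ) : Prop :=
  (∀ K M τ : ℝ, 0 < K → 0 < τ → τ < 2 / s → M < 1 / (1 + s * τ) → (Violations K M τ ξ).Infinite) ∧
  (∀ K M τ : ℝ, 0 < K → 1 / s < τ → 1 / (1 + s * τ) < M → (Violations K M τ ξ).Finite) ∧
  (∀ K M τ : ℝ, 0 < K → 0 < τ → 0 < M → bound (1 / M) < s * τ → (Violations K M τ ξ).Finite) ∧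
  (∀ τ : ℝ, 2 / s < τ → {t | Approximates τ ξ t}.Finite)

/-- `M` is the critical exponent of the approximations of `ξ` of exponent `τ` -/
def Critical (τ M ξ : ℝ) : Prop :=
  ∀ K : ℝ, 0 < K → (∀ M' : ℝ, M' < M → (Violations K M' τ ξ).Infinite) ∧
    (∀ M' : ℝ, M < M' → (Violations K M' τ ξ).Finite)

lemma WW_mono {B B' lam lam' τ τ' : ℝ} (hB : B ≤ B') (hB' : 0 ≤ B') (hlam : lam ≤ lam') (hτ : τ' ≤ τ) :
    Pool.Agent.R479.DA.WW B lam τ ⊆ Pool.Agent.R479.DA.WW B' lam' τ' := by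
  intro ξ hξ
  refine Set.Infinite.mono ?_ hξ
  rintro ⟨p, q⟩ ⟨⟨h1, h2, h3, h4⟩, h5⟩
  simp only at h1 h2 h3 h4 h5
  have hq : (1 : ℝ) ≤ (q : ℝ) := by
    have : 1 ≤ q := by omega
    exact_mod_cast this
  refine ⟨⟨h1, h2, h3, ?_⟩, h5.trans (Real.rpow_le_rpow_of_exponent_le hq (by linarith))⟩
  refine h4.trans ?_
  exact mul_le_mul hB (Real.rpow_le_rpow_of_exponent_le hq hlam) (by positivity) hB'

/-- the lower half of the profile -/
lemma lower {s y : ℝ} (hs : 0 < s)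
    (h : ∀ (k : ℕ) (lam τ : ℚ), (lam : ℝ) ≤ 3 → (0 : ℝ) < τ → s * τ < lam - 1 →
      y ∈ Pool.Agent.R479.DA.WW (1 / ((k : ℝ) + 1)) lam τ) (K M τ : ℝ) (hK : 0 < K) (hτ : 0 < τ)
    (hτ2 : τ < 2 / s) (hM : M < 1 / (1 + s * τ)) : (Violations K M τ y).Infinite := by
  have hsτ : 0 < s * τ := mul_pos hs hτ
  have hsτ2 : s * τ < 2 := by
    rw [lt_div_iff₀ hs] at hτ2
    linarith
  have h1 : max M (1 / 3) < 1 / (1 + s * τ) := by
    apply max_lt hM
    rw [div_lt_div_iff₀ (by norm_num) (by linarith)]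
    linarith
  obtain ⟨M', h2, h3⟩ := exists_between h1
  have h4 : M < M' := lt_of_le_of_lt (le_max_left _ _) h2
  have h5 : 1 / 3 < M' := lt_of_le_of_lt (le_max_right _ _) h2
  have hM' : 0 < M' := by linarith
  have h6 : 1 + s * τ < 1 / M' := by
    rw [lt_div_iff₀ (by linarith)] at h3
    rw [lt_div_iff₀ hM']
    linarith
  obtain ⟨lam, h7, h8⟩ := exists_rat_btwn h6
  obtain ⟨τ', h9, h10⟩ := exists_rat_btwn (show τ < (lam - 1) / s by
    rw [lt_div_iff₀ hs]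
    linarith)
  rw [lt_div_iff₀ hs] at h10
  have hB : 0 < K ^ (-(1 / M')) := by positivity
  obtain ⟨k, hk⟩ := exists_nat_one_div_lt hB
  have h11 : (lam : ℝ) ≤ 3 := by
    have : 1 / M' < 3 := by
      rw [div_lt_iff₀ hM']
      linarith
    linarith
  have h12 := h k lam τ' h11 (by linarith) (by linarith)
  have h13 := WW_mono hk.le hB.le h8.le h9.le h12
  rw [← exc_eq hK hM'] at h13
  exact Set.Infinite.mono (viol_subset le_rfl hK.le h4.le le_rfl) h13

lemma finite_of_not_exc {K M τ ξ : ℝ} (h : ξ ∉ Exceptional K M τ) : (Violations K M τ ξ).Finite :=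
  Set.not_infinite.1 h

lemma bound_continuous : Continuous Pool.Agent.W221.ABC7.Fx := by
  rw [funext Pool.Agent.W221.ABC7.Fx_eq]
  fun_prop

/-- a rational exponent slightly below -/
lemma exists_rat_below {M u : ℝ} (hM : 0 < M) (h : bound (1 / M) < u) :
    ∃ M' : ℚ, (0 : ℝ) < M' ∧ (M' : ℝ) < M ∧ Pool.Agent.W221.ABC7.Fx (1 / (M' : ℝ)) < u := by
  have h1 : ContinuousAt (fun x : ℝ => Pool.Agent.W221.ABC7.Fx (1 / x)) M := by
    have h0 : M ≠ 0 := hM.ne'
    exact bound_continuous.continuousAt.comp (by fun_prop (disch := exact h0))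
  have h2 : ∀ᶠ x : ℝ in 𝓝 M, Pool.Agent.W221.ABC7.Fx (1 / x) < u :=
    (tendsto_order.1 h1.tendsto).2 _ h
  obtain ⟨ε, hε, h3⟩ := Metric.eventually_nhds_iff.1 h2
  obtain ⟨M', h4, h5⟩ := exists_rat_btwn (show max 0 (M - ε) < M from max_lt hM (by linarith))
  refine ⟨M', lt_of_le_of_lt (le_max_left _ _) h4, h5, h3 ?_⟩
  have h6 : M - ε < M' := lt_of_le_of_lt (le_max_right _ _) h4
  rw [Real.dist_eq, abs_lt]
  constructor <;> linarith

/-- the upper half of the profile -/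
lemma upper {s y : ℝ} (hs : 0 < s)
    (h : ∀ (k : ℕ) (M τ : ℚ), (0 : ℝ) < M → (0 : ℝ) < τ →
      Pool.Agent.W221.ABC7.Fx (1 / (M : ℝ)) < s * τ → y ∉ Exceptional (1 / ((k : ℝ) + 1)) M τ)
    (h' : ∀ τ : ℚ, 2 / s < (τ : ℝ) → y ∉ Pool.Agent.R479.DA.WW 1 3 τ) :
    (∀ K M τ : ℝ, 0 < K → 1 / s < τ → 1 / (1 + s * τ) < M → (Violations K M τ y).Finite) ∧
    (∀ K M τ : ℝ, 0 < K → 0 < τ → 0 < M → bound (1 / M) < s * τ → (Violations K M τ y).Finite) ∧
    (∀ τ : ℝ, 2 / s < τ → {t | Approximates τ y t}.Finite) := by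
  have key : ∀ K M τ : ℝ, 0 < K → 0 < τ → 0 < M → bound (1 / M) < s * τ →
      (Violations K M τ y).Finite := by
    intro K M τ hK hτ hM hb
    obtain ⟨k, hk⟩ := exists_nat_one_div_lt hK
    obtain ⟨M', h1, h2, h3⟩ := exists_rat_below hM hb
    have h4 : Pool.Agent.W221.ABC7.Fx (1 / (M' : ℝ)) / s < τ := by
      rw [div_lt_iff₀ hs]
      linarith
    obtain ⟨τ', h8, h9⟩ := exists_rat_btwn h4
    have h10 : (0 : ℝ) < τ' :=
      lt_trans (div_pos (Pool.Agent.W221.ABC7.Fx_pos _ (by positivity)) hs) h8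
    rw [div_lt_iff₀ hs] at h8
    have h11 := h k M' τ' h1 h10 (by linarith)
    exact (finite_of_not_exc h11).subset (viol_subset hk.le (by positivity) h2.le h9.le)
  refine ⟨?_, key, ?_⟩
  · intro K M τ hK hτ hM
    have hτ0 : 0 < τ := lt_trans (by positivity) hτ
    have hτ' : 1 < s * τ := by
      rw [div_lt_iff₀ hs] at hτ
      linarith
    have hM0 : 0 < M := lt_trans (by positivity) hM
    apply key K M τ hK hτ0 hM0
    rcases le_or_gt 2 (1 / M) with h1 | h1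
    · have h2 : bound (1 / M) = 1 / M - 1 := Pool.Agent.W221.ABC7.Fx_two _ h1
      rw [h2, sub_lt_iff_lt_add, div_lt_iff₀ hM0]
      rw [div_lt_iff₀ (by linarith)] at hM
      linarith
    · refine lt_of_le_of_lt ?_ hτ'
      unfold bound
      split_ifs <;> linarith
  · intro τ hτ
    obtain ⟨τ', h1, h2⟩ := exists_rat_btwn hτ
    have h3 := h' τ' h1
    have h4 : {t | t ∈ Pool.Agent.R479.DA.Sm 1 3 ∧ |y - (t.1 : ℝ) / t.2| ≤ (t.2 : ℝ) ^ (-(τ' : ℝ))}.Finite :=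
      Set.not_infinite.1 h3
    refine h4.subset ?_
    rintro ⟨p, q⟩ ⟨a1, a2, a3, a4⟩
    simp only at a1 a2 a3 a4
    have hq : (1 : ℝ) ≤ (q : ℝ) := by
      have : 1 ≤ q := by omega
      exact_mod_cast this
    refine ⟨⟨a1, a2, a3, ?_⟩, a4.trans (Real.rpow_le_rpow_of_exponent_le hq (by linarith))⟩
    simp only
    have h5 : Pool.Agent.H785R2.ABC.rad (p * q * (q - p)) ≤ q ^ 3 := by
      refine (Pool.Agent.R479.DA.rad_le_self ?_).trans ?_
      · have : 0 < q - p := by omega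
        have hq' : 0 < q := by omega
        positivity
      · calc p * q * (q - p) ≤ q * q * q :=
              Nat.mul_le_mul (Nat.mul_le_mul a2.le le_rfl) (Nat.sub_le _ _)
          _ = q ^ 3 := by ring
    have h6 : ((Pool.Agent.H785R2.ABC.rad (p * q * (q - p)) : ℕ) : ℝ) ≤ (q : ℝ) ^ 3 := by
      exact_mod_cast h5
    have h7 : (q : ℝ) ^ (3 : ℝ) = (q : ℝ) ^ 3 := by
      exact_mod_cast Real.rpow_natCast (q : ℝ) 3
    rw [one_mul, h7]
    exact h6

/-- the null set outside of which the upper half of the profile holds -/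
def Bad (s : ℝ) (a r : ℕ → ℝ) : Set ℝ :=
  (⋃ (i : ℕ) (k : ℕ) (M : ℚ) (τ : ℚ) (_ : (0 : ℝ) < M ∧ (0 : ℝ) < τ ∧
    Pool.Agent.W221.ABC7.Fx (1 / (M : ℝ)) < s * τ),
      {ξ : ℝ | Int.fract (a i * ξ + r i) ∈ Exceptional (1 / ((k : ℝ) + 1)) M τ}) ∪
  ⋃ (i : ℕ) (τ : ℚ) (_ : 2 / s < (τ : ℝ)),
    {ξ : ℝ | Int.fract (a i * ξ + r i) ∈ Pool.Agent.R479.DA.WW 1 3 τ}

lemma bad_null {s : ℝ} (hs : 0 < s) (a r : ℕ → ℝ) (ha : ∀ i, a i ≠ 0) :
    Measure.hausdorffMeasure s (Bad s a r) = 0 := by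
  refine measure_union_null ?_ ?_
  · refine measure_iUnion_null fun i => measure_iUnion_null fun k => measure_iUnion_null fun M =>
      measure_iUnion_null fun τ => measure_iUnion_null fun h => ?_
    apply Pool.Agent.V7H39.VP.null_set hs (ha i)
    obtain ⟨h1, h2, h3⟩ := h
    rw [exc_eq (by positivity) h1]
    refine lt_of_le_of_lt (Pool.Agent.R479.DA.dim_le (by positivity) h2) ?_
    rw [ENNReal.ofReal_lt_ofReal_iff hs]
    refine lt_of_le_of_lt (min_le_right _ _) ?_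
    rw [div_lt_iff₀ h2]
    exact h3
  · refine measure_iUnion_null fun i => measure_iUnion_null fun τ => measure_iUnion_null fun h => ?_
    apply Pool.Agent.V7H39.VP.null_set hs (ha i)
    have h2 : (0 : ℝ) < τ := lt_trans (by positivity) h
    refine lt_of_le_of_lt (Pool.Agent.R479.DA.dim_le (by norm_num) h2) ?_
    rw [ENNReal.ofReal_lt_ofReal_iff hs]
    refine lt_of_le_of_lt (min_le_right _ _) ?_
    rw [Pool.Agent.W221.ABC7.Fx_two 3 (by norm_num), div_lt_iff₀ h2]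
    rw [div_lt_iff₀ hs] at h
    linarith

lemma upper_of_not_bad {s : ℝ} (hs : 0 < s) {a r : ℕ → ℝ} {ξ : ℝ} (h : ξ ∉ Bad s a r) (i : ℕ) :
    (∀ K M τ : ℝ, 0 < K → 1 / s < τ → 1 / (1 + s * τ) < M →
      (Violations K M τ (Int.fract (a i * ξ + r i))).Finite) ∧
    (∀ K M τ : ℝ, 0 < K → 0 < τ → 0 < M → bound (1 / M) < s * τ →
      (Violations K M τ (Int.fract (a i * ξ + r i))).Finite) ∧
    (∀ τ : ℝ, 2 / s < τ → {t | Approximates τ (Int.fract (a i * ξ + r i)) t}.Finite) := by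
  unfold Bad at h
  rw [Set.mem_union, not_or] at h
  apply upper hs
  · intro k M τ h1 h2 h3 h4
    apply h.1
    simp only [Set.mem_iUnion]
    exact ⟨i, k, M, τ, ⟨h1, h2, h3⟩, h4⟩
  · intro τ h1 h2
    apply h.2
    simp only [Set.mem_iUnion]
    exact ⟨i, τ, h1, h2⟩

/-- positive measure, for `s < 1` -/
lemma positive {s : ℝ} (hs : 0 < s) (hs1 : s < 1) (a r : ℕ → ℝ) (ha : ∀ i, a i ≠ 0) :
    0 < Measure.hausdorffMeasure s {ξ : ℝ | ξ ∈ Set.Icc (0 : ℝ) 1 ∧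
      ∀ i, Int.fract (a i * ξ + r i) ∈ Set.Ioo (0 : ℝ) 1 ∧ Profile s (Int.fract (a i * ξ + r i))} := by
  refine lt_of_lt_of_le (Pool.Agent.V7H39.VP.pos hs hs1 a r ha (Bad s a r) (bad_null hs a r ha))
    (measure_mono ?_)
  rintro ξ ⟨h1, h2, h3⟩
  refine ⟨h1, fun i => ⟨(h3 i).1, ?_⟩⟩
  exact ⟨fun K M τ hK hτ hτ2 hM => lower hs (h3 i).2 K M τ hK hτ hτ2 hM, upper_of_not_bad hs h2 i⟩

/-- almost every point has the profile with `s = 1` -/
lemma almost : ∀ᵐ ξ : ℝ, ξ ∈ Set.Ioo (0 : ℝ) 1 → Profile 1 ξ := by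
  have h1 : ∀ᵐ ξ : ℝ, ∀ (k : ℕ) (lam τ : ℚ), (lam : ℝ) ≤ 3 → (0 : ℝ) < τ → (1 : ℝ) * τ < lam - 1 →
      ξ ∈ Set.Ioo (0 : ℝ) 1 → ξ ∈ Pool.Agent.R479.DA.WW (1 / ((k : ℝ) + 1)) lam τ := by
    rw [ae_all_iff]
    intro k
    rw [ae_all_iff]
    intro lam
    rw [ae_all_iff]
    intro τ
    by_cases h : (lam : ℝ) ≤ 3 ∧ (0 : ℝ) < τ ∧ (1 : ℝ) * τ < lam - 1
    · filter_upwards [Pool.Agent.R479.DA.ae_WW (lam := lam) (B := 1 / ((k : ℝ) + 1)) (τ := τ)
        (by linarith [h.2.1, h.2.2]) h.1 (by positivity) (by linarith [h.2.2])] with ξ hξ _ _ _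
      exact hξ
    · exact Eventually.of_forall fun ξ a1 a2 a3 => absurd ⟨a1, a2, a3⟩ h
  have h2 : ∀ᵐ ξ : ℝ, ξ ∉ Bad 1 (fun _ => 1) (fun _ => 0) := by
    rw [← measure_eq_zero_iff_ae_notMem, ← hausdorffMeasure_real]
    exact bad_null one_pos _ _ (fun _ => one_ne_zero)
  filter_upwards [h1, h2] with ξ h3 h4 h5
  have h6 := upper_of_not_bad one_pos h4 0
  have h7 : Int.fract (1 * ξ + 0) = ξ := by
    rw [one_mul, add_zero, Int.fract_eq_self]
    exact ⟨h5.1.le, h5.2⟩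
  simp only [h7] at h6
  exact ⟨fun K M τ hK hτ hτ2 hM => lower one_pos (fun k lam τ a1 a2 a3 => h3 k lam τ a1 a2 a3 h5)
    K M τ hK hτ hτ2 hM, h6⟩

lemma level_le {τ M₀ : ℝ} (hτ : 0 < τ) (h1 : 1 / 3 < M₀) (h2 : M₀ < 1 / 2) {S : Set ℝ}
    (hS : ∀ M : ℝ, M < M₀ → S ⊆ Exceptional 1 M τ) : dimH S ≤ ENNReal.ofReal ((1 / M₀ - 1) / τ) := by
  have h5 : Tendsto (fun x : ℝ => ENNReal.ofReal ((1 / x - 1) / τ)) (𝓝[<] M₀)
      (𝓝 (ENNReal.ofReal ((1 / M₀ - 1) / τ))) := by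
    apply ENNReal.tendsto_ofReal
    apply Tendsto.mono_left _ nhdsWithin_le_nhds
    have hc : ContinuousAt (fun x : ℝ => (1 / x - 1) / τ) M₀ := by
      have h0 : M₀ ≠ 0 := by linarith
      fun_prop (disch := exact h0)
    exact hc
  refine ge_of_tendsto h5 ?_
  have h6 : ∀ᶠ x : ℝ in 𝓝[<] M₀, 1 / 3 < x := by
    apply eventually_nhdsWithin_of_eventually_nhds
    exact lt_mem_nhds h1
  filter_upwards [h6, self_mem_nhdsWithin] with x hx hx'
  have hx'' : x < M₀ := hx'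
  have hx0 : 0 < x := by linarith
  refine (dimH_mono (hS x hx'')).trans ?_
  rw [exc_eq one_pos hx0]
  refine (Pool.Agent.R479.DA.dim_le (by positivity) hτ).trans ?_
  rw [Pool.Agent.W221.ABC7.Fx_two _ (by rw [le_div_iff₀ hx0]; linarith)]
  exact ENNReal.ofReal_le_ofReal (min_le_right _ _)

lemma dim_profile_ge {s : ℝ} (hs : 0 < s) (hs1 : s ≤ 1) :
    ENNReal.ofReal s ≤ dimH {ξ : ℝ | Profile s ξ} := by
  rcases lt_or_eq_of_le hs1 with h | h
  · have h1 := positive hs h (fun _ => 1) (fun _ => 0) (fun _ => one_ne_zero)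
    have h2 : {ξ : ℝ | ξ ∈ Set.Icc (0 : ℝ) 1 ∧ ∀ i : ℕ,
        Int.fract ((fun _ : ℕ => (1 : ℝ)) i * ξ + (fun _ : ℕ => (0 : ℝ)) i) ∈ Set.Ioo (0 : ℝ) 1 ∧
        Profile s (Int.fract ((fun _ : ℕ => (1 : ℝ)) i * ξ + (fun _ : ℕ => (0 : ℝ)) i))} ⊆
        {ξ : ℝ | Profile s ξ} := by
      rintro ξ ⟨h3, h4⟩
      obtain ⟨h5, h6⟩ := h4 0
      simp only [one_mul, add_zero] at h5 h6
      have h7 : ξ < 1 := by
        rcases lt_or_eq_of_le h3.2 with h8 | h8
        · exact h8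
        · exfalso
          rw [h8, Int.fract_one] at h5
          exact lt_irrefl _ h5.1
      rw [Int.fract_eq_self.2 ⟨h3.1, h7⟩] at h6
      exact h6
    have h8 := le_dimH_of_hausdorffMeasure_ne_zero (d := Real.toNNReal s) (s := {ξ : ℝ | Profile s ξ})
      (by
        rw [Real.coe_toNNReal _ hs.le]
        exact (h1.trans_le (measure_mono h2)).ne')
    exact h8
  · subst h
    have h4 : (volume : Measure ℝ) {ξ : ℝ | Profile 1 ξ} ≠ 0 := by
      intro hzero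
      have h5 : (volume : Measure ℝ) (Set.Ioo (0 : ℝ) 1) ≤ volume {ξ : ℝ | Profile 1 ξ} := by
        apply measure_mono_ae
        filter_upwards [almost] with x hx hx01
        exact hx hx01
      rw [hzero, Real.volume_Ioo] at h5
      norm_num at h5
    rw [← hausdorffMeasure_real] at h4
    have h6 := le_dimH_of_hausdorffMeasure_ne_zero (d := 1) (s := {ξ : ℝ | Profile 1 ξ})
      (by rw [NNReal.coe_one]; exact h4)
    simpa using h6

lemma dim_profile {s : ℝ} (hs : 0 < s) (hs1 : s ≤ 1) : dimH {ξ : ℝ | Profile s ξ} = ENNReal.ofReal s := by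
  apply le_antisymm _ (dim_profile_ge hs hs1)
  have hτ : 0 < 3 / (2 * s) := by positivity
  have hsτ : s * (3 / (2 * s)) = 3 / 2 := by field_simp
  have h1 := level_le (τ := 3 / (2 * s)) (M₀ := 2 / 5) hτ (by norm_num) (by norm_num)
    (S := {ξ : ℝ | Profile s ξ}) (fun M hM ξ hξ => hξ.1 1 M (3 / (2 * s)) one_pos hτ
      (by
        rw [div_lt_div_iff₀ (by positivity) hs]
        nlinarith) (by
        rw [hsτ]
        norm_num
        norm_num at hM
        exact hM))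
  refine h1.trans (le_of_eq ?_)
  congr 1
  field_simp
  norm_num

lemma dim_critical {τ M : ℝ} (hτ : 1 < τ) (h1 : 1 / 3 < M) (h2 : M < 1 / 2) (h3 : 1 / (1 + τ) ≤ M) :
    dimH {ξ : ℝ | Critical τ M ξ} = ENNReal.ofReal ((1 / M - 1) / τ) := by
  have hM : 0 < M := by linarith
  have hτ0 : 0 < τ := by linarith
  apply le_antisymm
  · exact level_le hτ0 h1 h2 (fun M' hM' ξ hξ => (hξ 1 one_pos).1 M' hM')
  · have h4 : 1 < 1 / M - 1 := by
      rw [lt_sub_iff_add_lt, lt_div_iff₀ hM]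
      linarith
    have h5 : 1 / M - 1 < 2 := by
      rw [sub_lt_iff_lt_add, div_lt_iff₀ hM]
      linarith
    set s : ℝ := (1 / M - 1) / τ with hs
    have hs0 : 0 < s := div_pos (by linarith) hτ0
    have hs1 : s ≤ 1 := by
      rw [hs, div_le_one hτ0, sub_le_iff_le_add, div_le_iff₀ hM]
      rw [div_le_iff₀ (by linarith)] at h3
      linarith
    have hsτ : s * τ = 1 / M - 1 := by
      rw [hs]
      field_simp
    refine (dim_profile_ge hs0 hs1).trans (dimH_mono ?_)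
    intro ξ hξ K hK
    have h6 : 1 / (1 + s * τ) = M := by
      rw [hsτ]
      field_simp
      ring
    refine ⟨fun M' hM' => hξ.1 K M' τ hK hτ0 ?_ ?_, fun M' hM' => hξ.2.1 K M' τ hK ?_ ?_⟩
    · rw [lt_div_iff₀ hs0]
      linarith
    · rw [h6]
      exact hM'
    · rw [div_lt_iff₀ hs0]
      linarith
    · rw [h6]
      exact hM'

/-- **Theorem.** (1) For `0 < s < 1` and any countable family of affine maps `ξ ↦ a i ξ + r i`, the set of the
`ξ` in `[0, 1]` all of whose images modulo one have the violation profile of parameter `s` has positive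
`s`-dimensional Hausdorff measure. (2) Almost every `ξ` in `(0, 1)` has the profile of parameter `1`. (3) For
`0 < s ≤ 1` the set of the `ξ` with the profile of parameter `s` has dimension exactly `s`. (4) For `τ > 1`
and `1 / 3 < M < 1 / 2`, `M ≥ 1 / (1 + τ)`, the level set of the `ξ` with critical exponent `M` has dimension
exactly `(1 / M - 1) / τ`. -/
theorem result :
    (∀ s : ℝ, 0 < s → s < 1 → ∀ a r : ℕ → ℝ, (∀ i, a i ≠ 0) →
      0 < Measure.hausdorffMeasure s {ξ : ℝ | ξ ∈ Set.Icc (0 : ℝ) 1 ∧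
        ∀ i, Int.fract (a i * ξ + r i) ∈ Set.Ioo (0 : ℝ) 1 ∧ Profile s (Int.fract (a i * ξ + r i))}) ∧
    (∀ᵐ ξ : ℝ, ξ ∈ Set.Ioo (0 : ℝ) 1 → Profile 1 ξ) ∧
    (∀ s : ℝ, 0 < s → s ≤ 1 → dimH {ξ : ℝ | Profile s ξ} = ENNReal.ofReal s) ∧
    (∀ τ M : ℝ, 1 < τ → 1 / 3 < M → M < 1 / 2 → 1 / (1 + τ) ≤ M →
      dimH {ξ : ℝ | Critical τ M ξ} = ENNReal.ofReal ((1 / M - 1) / τ)) :=
  ⟨fun _ hs hs1 a r ha => positive hs hs1 a r ha, almost, fun _ hs hs1 => dim_profile hs hs1,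
    fun _ _ h1 h2 h3 h4 => dim_critical h1 h2 h3 h4⟩

end Pool.Agent.Results.MP_2ec8a3_nt.ViolationProfileH39
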